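import Pool.Agent.W622.ETC.Stm

set_option autoImplicit false
set_option linter.unusedSectionVars false

namespace Pool.Agent.W839.ELT

open Pool.Agent.W622.ETC Module

section
variable {V : Type} [AddCommGroup V] [Module (ZMod 2) V] [Finite V]

/-- The value of a form at `a` depends only on the values at `a` of its support. -/
lemma val_congr {ω : Frm V} (h : Alt ω) {a a' : V} (haa : ∀ f ∈ sp ω, f a = f a') :
    ω a = ω a' := by
  refine LinearMap.ext fun b => ?_
  rw [h.symm a b, h.symm a' b]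
  exact haa _ ⟨b, rfl⟩

lemma sum_mem_sSup (A : Fam V) (s : Finset (DSub V)) (hs : ∀ Z ∈ s, sp (om A Z) = Z) (v : V) :
    (∑ Z ∈ s, om A Z) v ∈ (sSup (s : Set (DSub V)) : DSub V) := by
  rw [LinearMap.sum_apply]
  refine Submodule.sum_mem _ fun Z hZ => ?_
  have h1 : om A Z v ∈ Z := by
    have h2 : om A Z v ∈ sp (om A Z) := ⟨v, rfl⟩
    rwa [hs Z hZ] at h2
  exact (le_sSup (Finset.mem_coe.2 hZ) : Z ≤ sSup (s : Set (DSub V))) h1

lemma sum_alt (A : Fam V) (s : Finset (DSub V)) (hs : ∀ Z ∈ s, Alt (om A Z)) :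
    Alt (∑ Z ∈ s, om A Z) := by
  classical
  induction s using Finset.induction_on with
  | empty => rw [Finset.sum_empty]; exact Alt.zero
  | insert Z s hZ ih =>
    rw [Finset.sum_insert hZ]
    exact (hs Z (Finset.mem_insert_self _ _)).add
      (ih fun Y hY => hs Y (Finset.mem_insert_of_mem hY))

/-- Every element of the sum of independent local blocks is a value of the sum of the forms. -/
lemma exists_val_sum (A : Fam V) (s : Finset (DSub V)) (hs : ∀ Z ∈ s, sp (om A Z) = Z)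
    (ha : ∀ Z ∈ s, Alt (om A Z)) (hi : sSupIndep (s : Set (DSub V))) :
    ∀ x ∈ (sSup (s : Set (DSub V)) : DSub V), ∃ a : V, (∑ Z ∈ s, om A Z) a = x := by
  classical
  induction s using Finset.induction_on with
  | empty =>
    intro x hx
    rw [Finset.coe_empty, sSup_empty, Submodule.mem_bot] at hx
    exact ⟨0, by rw [hx, map_zero]⟩
  | insert Z s hZ ih =>
    intro x hx
    have hs' : ∀ Y ∈ s, sp (om A Y) = Y := fun Y hY => hs Y (Finset.mem_insert_of_mem hY)
    have ha' : ∀ Y ∈ s, Alt (om A Y) := fun Y hY => ha Y (Finset.mem_insert_of_mem hY)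
    have hsub : (s : Set (DSub V)) ⊆ ((insert Z s : Finset (DSub V)) : Set (DSub V)) := by
      rw [Finset.coe_insert]
      exact Set.subset_insert _ _
    rw [Finset.coe_insert, sSup_insert, Submodule.mem_sup] at hx
    obtain ⟨z, hz, y, hy, rfl⟩ := hx
    obtain ⟨a₁, h₁⟩ := ih hs' ha' (hi.mono hsub) y hy
    have hz' : z ∈ sp (om A Z) := by rwa [hs Z (Finset.mem_insert_self _ _)]
    obtain ⟨a₂, h₂⟩ := hz'
    have hdis : Disjoint Z (sSup (s : Set (DSub V))) := by
      have h3 := hi (Finset.mem_coe.2 (Finset.mem_insert_self Z s))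
      have h4 : ((insert Z s : Finset (DSub V)) : Set (DSub V)) \ {Z} = (s : Set (DSub V)) := by
        rw [Finset.coe_insert, Set.insert_diff_self_of_notMem]
        exact fun h => hZ (Finset.mem_coe.1 h)
      rwa [h4] at h3
    obtain ⟨a, h5, h6⟩ := exists_glue hdis a₂ a₁
    refine ⟨a, ?_⟩
    rw [Finset.sum_insert hZ, LinearMap.add_apply]
    congr 1
    · rw [← h₂]
      refine val_congr (ha Z (Finset.mem_insert_self _ _)) fun f hf => ?_
      rw [hs Z (Finset.mem_insert_self _ _)] at hf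
      exact h5 f hf
    · rw [← h₁]
      refine val_congr (sum_alt A s ha') fun f hf => ?_
      obtain ⟨v, rfl⟩ := hf
      exact h6 _ (sum_mem_sSup A s hs' v)

/-- An independent set and a disjoint submodule. -/
lemma indep_of_diff (D : Set (DSub V)) (X : DSub V) (hi : sSupIndep (D \ {X}))
    (hX : Disjoint X (sSup (D \ {X}))) : sSupIndep D := by
  intro Y hY
  by_cases h : Y = X
  · rw [h]; exact hX
  · rw [Submodule.disjoint_def]
    intro x hx hx'
    have h1 : sSup (D \ {Y}) ≤ X ⊔ sSup ((D \ {X}) \ {Y}) := by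
      refine sSup_le fun Z hZ => ?_
      by_cases h2 : Z = X
      · rw [h2]; exact le_sup_left
      · exact le_sup_of_le_right (le_sSup ⟨⟨hZ.1, h2⟩, hZ.2⟩)
    obtain ⟨p, hp, q, hq, hpq⟩ := Submodule.mem_sup.1 (h1 hx')
    have hYD : Y ∈ D \ {X} := ⟨hY, h⟩
    have hq' : q ∈ (sSup (D \ {X}) : DSub V) :=
      (sSup_le_sSup Set.diff_subset : sSup ((D \ {X}) \ {Y}) ≤ sSup (D \ {X})) hq
    have hx'' : x ∈ (sSup (D \ {X}) : DSub V) := (le_sSup hYD : Y ≤ sSup (D \ {X})) hx
    have hp' : p ∈ (sSup (D \ {X}) : DSub V) := by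
      have h3 : p = x - q := by rw [← hpq]; abel
      rw [h3]
      exact Submodule.sub_mem _ hx'' hq'
    have hp0 : p = 0 := (Submodule.disjoint_def.1 hX) p hp hp'
    rw [hp0, zero_add] at hpq
    rw [← hpq]
    exact (Submodule.disjoint_def.1 (hi hYD)) q (hpq ▸ hx) hq

end

theorem t_MD (hLU : S_LU) (hDEC : S_DEC) (hCB1 : S_CB1) (hOM : S_OM) : S_MD := by
  intro V _ _ _ A D X hCB hD hnot hmin hX hgood
  classical
  by_contra hne
  have hAlt : AltFam A := hCB.mc.alt
  have hloc : ∀ Z ∈ D, LocBlock A Z := by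
    intro Z hZ
    rcases hD Z hZ with h | h
    · exact absurd h.1 (hCB.nc Z)
    · exact h
  obtain ⟨b, hb0, hb⟩ := exists_ann hne
  -- a common element
  have hind : sSupIndep (D \ {X}) := hmin _ Set.diff_subset fun h => by
    have h1 : X ∈ D \ {X} := by rw [h]; exact hX
    exact h1.2 rfl
  have hndis : ¬ Disjoint X (sSup (D \ {X})) := fun h => hnot (indep_of_diff D X hind h)
  rw [Submodule.disjoint_def] at hndis
  push Not at hndis
  obtain ⟨x, hxX, hxs, hx0⟩ := hndis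
  -- the form
  have hfin : (D \ {X}).Finite := Set.toFinite _
  let s : Finset (DSub V) := hfin.toFinset
  have hs : (s : Set (DSub V)) = D \ {X} := hfin.coe_toFinset
  have hsD : ∀ Z ∈ s, Z ∈ D ∧ Z ≠ X := fun Z hZ => by
    have h1 : Z ∈ (s : Set (DSub V)) := Finset.mem_coe.2 hZ
    rw [hs] at h1
    exact ⟨h1.1, h1.2⟩
  have hom : ∀ Z ∈ D, om A Z ∈ A ∧ om A Z ≠ 0 ∧ sp (om A Z) = Z ∧
      (∀ η ∈ res A Z, η = 0 ∨ η = om A Z) ∧ Even (finrank (ZMod 2) Z) ∧
      2 ≤ finrank (ZMod 2) Z := fun Z hZ => hOM V A Z hAlt (hloc Z hZ)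
  have hsp : ∀ Z ∈ s, sp (om A Z) = Z := fun Z hZ => (hom Z (hsD Z hZ).1).2.2.1
  have halt : ∀ Z ∈ s, Alt (om A Z) := fun Z hZ => hAlt _ (hom Z (hsD Z hZ).1).1
  obtain ⟨a, ha⟩ := exists_val_sum A s hsp halt (by rw [hs]; exact hind) x (by rw [hs]; exact hxs)
  set ζ : Frm V := ∑ Z ∈ s, om A Z with hζ
  have hζA : ζ ∈ A := Submodule.sum_mem _ fun Z hZ => (hom Z (hsD Z hZ).1).1
  have hζalt : Alt ζ := hAlt _ hζA
  have hspζ : sp ζ ≤ ann b := by
    refine le_trans ?_ hb
    rintro _ ⟨v, rfl⟩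
    have h1 := sum_mem_sSup A s hsp v
    rwa [hs] at h1
  -- the part in `X`
  obtain ⟨h1, -, h3⟩ := hDEC V A X hAlt
  obtain ⟨π, hπ⟩ := h1 (hLU V (res A X) (hAlt.res X) (hCB.mc.her.res X)) hgood ζ hζA
  obtain ⟨-, h5, h6⟩ := h3 ζ hζA π hπ
  have hπa : π a = x := by
    rw [h6 a (by rw [ha]; exact hxX), ha]
  have hπ0 : π ≠ 0 := by
    intro h
    rw [h] at hπa
    exact hx0 hπa.symm
  have hπX : π = om A X := ((hom X hX).2.2.2.1 π hπ.1).resolve_left hπ0
  have hXb : X ≤ ann b := by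
    rw [← (hom X hX).2.2.1, ← hπX]
    exact h5.trans hspζ
  -- all of `D` is killed by `b`
  have hDb : D ⊆ BL A b := by
    intro Z hZ
    refine ⟨hD Z hZ, ?_⟩
    by_cases h : Z = X
    · rw [h]; exact hXb
    · exact (le_sSup (show Z ∈ D \ {X} from ⟨hZ, h⟩)).trans hb
  exact hnot ((hCB1 V A b hCB hb0).1.1.mono hDb)

end Pool.Agent.W839.ELT
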